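import Mathlib

set_option autoImplicit false

open Set Cardinal

namespace Pool.Agent.Results.MP_53e992_co.Counter

/-- `(G, w)` is tree-like: `G` is connected and every vertex `y` has a neighbour `x` such that
`y` lies on every shortest path from `x` to `w`. -/
def TreeLike {V : Type} (G : SimpleGraph V) (w : V) : Prop :=
  G.Connected ∧ ∀ y, ∃ x, G.Adj y x ∧ ∀ p : G.Walk x w, p.length = G.dist x w → y ∈ p.support

/-- The numbers of vertices moved by the non-identity automorphisms of `G`. -/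
def Moved {V : Type} (G : SimpleGraph V) : Set Cardinal.{0} :=
  {c | ∃ φ : G ≃g G, (∃ v, φ v ≠ v) ∧ c = #{v | φ v ≠ v}}

section order
variable {L : Type} [LinearOrder L] {μ : Cardinal.{0}}

def Short (μ : Cardinal.{0}) (S : Set L) : Prop :=
  ∀ T ⊆ S, (∃ C ⊆ T, #C ≤ μ ∧ ∀ t ∈ T, ∃ c ∈ C, t ≤ c) ∧ ∃ C ⊆ T, #C ≤ μ ∧ ∀ t ∈ T, ∃ c ∈ C, c ≤ t

def Sat (μ : Cardinal.{0}) (L : Type) [LinearOrder L] : Prop :=
  ∀ A B : Set L, #A ≤ μ → #B ≤ μ → (∀ a ∈ A, ∀ b ∈ B, a < b) →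
    ∃ x, (∀ a ∈ A, a < x) ∧ ∀ b ∈ B, x < b

theorem un_le {X I : Type} (hμ : ℵ₀ ≤ μ) (hI : #I ≤ μ) {C : I → Set X} (h : ∀ i, #(C i) ≤ μ) :
    #(⋃ i, C i : Set X) ≤ μ :=
  (mk_iUnion_le _).trans ((mul_le_mul' hI (ciSup_le' h)).trans (mul_eq_self hμ).le)

theorem un2_le {X : Type} (hμ : ℵ₀ ≤ μ) {A B : Set X} (hA : #A ≤ μ) (hB : #B ≤ μ) :
    #(A ∪ B : Set X) ≤ μ := (mk_union_le _ _).trans (add_le_of_le hμ hA hB)

theorem fin_le {X : Type} (hμ : ℵ₀ ≤ μ) {A : Set X} (hA : A.Finite) : #A ≤ μ :=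
  hA.lt_aleph0.le.trans hμ

theorem Short.mono {S T : Set L} (h : Short μ S) (hs : T ⊆ S) : Short μ T :=
  fun U hU => h U (hU.trans hs)

theorem short_small {S : Set L} (h : #S ≤ μ) : Short μ S := fun T hT =>
  ⟨⟨T, Subset.rfl, (mk_le_mk_of_subset hT).trans h, fun t ht => ⟨t, ht, le_rfl⟩⟩,
    ⟨T, Subset.rfl, (mk_le_mk_of_subset hT).trans h, fun t ht => ⟨t, ht, le_rfl⟩⟩⟩

theorem short_iUnion {I : Type} (hμ : ℵ₀ ≤ μ) (hI : #I ≤ μ) {S : I → Set L}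
    (h : ∀ i, Short μ (S i)) : Short μ (⋃ i, S i) := by
  intro T hT
  choose C h1 h2 h3 using fun i => (h i (T ∩ S i) inter_subset_right).1
  choose D k1 k2 k3 using fun i => (h i (T ∩ S i) inter_subset_right).2
  refine ⟨⟨⋃ i, C i, iUnion_subset fun i => (h1 i).trans inter_subset_left, un_le hμ hI h2,
    fun t ht => ?_⟩, ⟨⋃ i, D i, iUnion_subset fun i => (k1 i).trans inter_subset_left,
    un_le hμ hI k2, fun t ht => ?_⟩⟩
  · obtain ⟨i, hi⟩ := mem_iUnion.1 (hT ht)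
    obtain ⟨c, hc, hc'⟩ := h3 i t ⟨ht, hi⟩
    exact ⟨c, mem_iUnion.2 ⟨i, hc⟩, hc'⟩
  · obtain ⟨i, hi⟩ := mem_iUnion.1 (hT ht)
    obtain ⟨c, hc, hc'⟩ := k3 i t ⟨ht, hi⟩
    exact ⟨c, mem_iUnion.2 ⟨i, hc⟩, hc'⟩

theorem Short.union (hμ : ℵ₀ ≤ μ) {S T : Set L} (h : Short μ S) (h' : Short μ T) :
    Short μ (S ∪ T) := by
  rw [union_eq_iUnion]
  exact short_iUnion hμ ((lt_aleph0_of_finite Bool).le.trans hμ) (by rintro (_ | _) <;> simpa)

variable {Θ : Type}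

def PI (R : L → Prop) (c : L → Θ) (p : Set (L × L)) : Prop :=
  (∀ q ∈ p, R q.1 ∧ R q.2 ∧ c q.1 = c q.2) ∧ ∀ q ∈ p, ∀ r ∈ p, (q.1 < r.1 ↔ q.2 < r.2)

theorem PI.swap {R : L → Prop} {c : L → Θ} {p : Set (L × L)} (h : PI R c p) :
    PI R c (Prod.swap '' p) := by
  constructor
  · rintro _ ⟨q, hq, rfl⟩
    exact ⟨(h.1 q hq).2.1, (h.1 q hq).1, (h.1 q hq).2.2.symm⟩
  · rintro _ ⟨q, hq, rfl⟩ _ ⟨r, hr, rfl⟩
    exact (h.2 q hq r hr).symm

theorem PI.short {R : L → Prop} {c : L → Θ} {p : Set (L × L)} (h : PI R c p)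
    (hs : Short μ (Prod.fst '' p)) : Short μ (Prod.fst '' (Prod.swap '' p)) := by
  intro T hT
  have hT' : ∀ t ∈ T, ∃ q ∈ p, q.2 = t := fun t ht => by
    obtain ⟨_, ⟨q, hq, rfl⟩, rfl⟩ := hT ht
    exact ⟨q, hq, rfl⟩
  obtain ⟨⟨C, h1, h2, h3⟩, ⟨D, k1, k2, k3⟩⟩ := hs (Prod.fst '' {q | q ∈ p ∧ q.2 ∈ T})
    (image_mono fun q hq => hq.1)
  choose g g1 g2 using fun x : C => h1 x.2
  choose f f1 f2 using fun x : D => k1 x.2
  refine ⟨⟨range fun x => (g x).2, range_subset_iff.2 fun x => (g1 x).2, mk_range_le.trans h2,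
    fun t ht => ?_⟩, ⟨range fun x => (f x).2, range_subset_iff.2 fun x => (f1 x).2,
    mk_range_le.trans k2, fun t ht => ?_⟩⟩
  · obtain ⟨q, hq, rfl⟩ := hT' t ht
    obtain ⟨x, hx, hx'⟩ := h3 q.1 ⟨q, ⟨hq, ht⟩, rfl⟩
    refine ⟨_, ⟨⟨x, hx⟩, rfl⟩, not_lt.1 fun k => ?_⟩
    have := (h.2 _ (g1 ⟨x, hx⟩).1 q hq).2 k
    rw [g2] at this
    exact absurd hx' (not_le.2 this)
  · obtain ⟨q, hq, rfl⟩ := hT' t ht
    obtain ⟨x, hx, hx'⟩ := k3 q.1 ⟨q, ⟨hq, ht⟩, rfl⟩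
    refine ⟨_, ⟨⟨x, hx⟩, rfl⟩, not_lt.1 fun k => ?_⟩
    have := (h.2 q hq _ (f1 ⟨x, hx⟩).1).2 k
    rw [f2] at this
    exact absurd hx' (not_le.2 this)

def CSat (μ : Cardinal.{0}) (R : L → Prop) (c : L → Θ) : Prop :=
  ∀ A B : Set L, #A ≤ μ → #B ≤ μ → (∀ a ∈ A, R a) → (∀ b ∈ B, R b) →
    (∀ a ∈ A, ∀ b ∈ B, a < b) → ∀ x, R x →
      ∃ y, R y ∧ c y = c x ∧ (∀ a ∈ A, a < y) ∧ ∀ b ∈ B, y < b

theorem ext1 {R : L → Prop} {c : L → Θ} (hc : CSat μ R c) {q : Set (L × L)} (h : PI R c q)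
    (hs : Short μ (Prod.fst '' q)) {x : L} (hx : R x) (hx' : x ∉ Prod.fst '' q) :
    ∃ y, PI R c (insert (x, y) q) := by
  obtain ⟨C, h1, h2, h3⟩ := (hs (Prod.fst '' q ∩ Iio x) inter_subset_left).1
  obtain ⟨D, k1, k2, k3⟩ := (hs (Prod.fst '' q ∩ Ioi x) inter_subset_left).2
  choose g g1 g2 using fun a : C => (h1 a.2).1
  choose f f1 f2 using fun a : D => (k1 a.2).1
  obtain ⟨y, y1, y2, y3, y4⟩ := hc (range fun a => (g a).2) (range fun a => (f a).2)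
    (mk_range_le.trans h2) (mk_range_le.trans k2)
    (by rintro _ ⟨a, rfl⟩; exact (h.1 _ (g1 a)).2.1)
    (by rintro _ ⟨a, rfl⟩; exact (h.1 _ (f1 a)).2.1)
    (by
      rintro _ ⟨a, rfl⟩ _ ⟨b, rfl⟩
      refine (h.2 _ (g1 a) _ (f1 b)).1 ?_
      rw [g2, f2]
      exact lt_trans (h1 a.2).2 (k1 b.2).2) x hx
  have lo : ∀ r ∈ q, r.1 < x → r.2 < y := fun r hr hrx => by
    obtain ⟨a, ha, ha'⟩ := h3 r.1 ⟨⟨r, hr, rfl⟩, hrx⟩
    refine lt_of_le_of_lt (not_lt.1 fun k => ?_) (y3 _ ⟨⟨a, ha⟩, rfl⟩)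
    have := (h.2 _ (g1 ⟨a, ha⟩) r hr).2 k
    rw [g2] at this
    exact absurd ha' (not_le.2 this)
  have hi : ∀ r ∈ q, x < r.1 → y < r.2 := fun r hr hrx => by
    obtain ⟨a, ha, ha'⟩ := k3 r.1 ⟨⟨r, hr, rfl⟩, hrx⟩
    refine lt_of_lt_of_le (y4 _ ⟨⟨a, ha⟩, rfl⟩) (not_lt.1 fun k => ?_)
    have := (h.2 r hr _ (f1 ⟨a, ha⟩)).2 k
    rw [f2] at this
    exact absurd ha' (not_le.2 this)
  have tri : ∀ r ∈ q, r.1 < x ∨ x < r.1 := fun r hr =>
    lt_or_gt_of_ne fun k => hx' ⟨r, hr, k⟩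
  refine ⟨y, ?_, ?_⟩
  · rintro r (rfl | hr)
    · exact ⟨hx, y1, y2.symm⟩
    · exact h.1 r hr
  · rintro r (rfl | hr) s (rfl | hs)
    · simp
    · exact ⟨hi s hs, fun k => (tri s hs).resolve_left fun l => lt_asymm k (lo s hs l)⟩
    · exact ⟨lo r hr, fun k => (tri r hr).resolve_right fun l => lt_asymm k (hi r hr l)⟩
    · exact h.2 r hr s hs

theorem ext2 (hμ : ℵ₀ ≤ μ) {R : L → Prop} {c : L → Θ} (hc : CSat μ R c) {p : Set (L × L)}
    (h : PI R c p) (hs : Short μ (Prod.fst '' p)) {S : Set L} (hS : Short μ S) :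
    ∃ q, p ⊆ q ∧ PI R c q ∧ Short μ (Prod.fst '' q) ∧ ∀ x ∈ S, R x → x ∈ Prod.fst '' q := by
  obtain ⟨q, hq1, hq2⟩ := zorn_subset_nonempty
    {q | PI R c q ∧ Prod.fst '' q ⊆ Prod.fst '' p ∪ S} (fun ch h1 h2 _ => by
      refine ⟨⋃₀ ch, ⟨⟨?_, ?_⟩, ?_⟩, fun s hs => subset_sUnion_of_mem hs⟩
      · rintro r ⟨a, ha, hr⟩
        exact (h1 ha).1.1 r hr
      · rintro r ⟨a, ha, hr⟩ s ⟨b, hb, hs⟩
        rcases h2.total ha hb with k | k
        · exact (h1 hb).1.2 r (k hr) s hs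
        · exact (h1 ha).1.2 r hr s (k hs)
      · rintro _ ⟨r, ⟨a, ha, hr⟩, rfl⟩
        exact (h1 ha).2 ⟨r, hr, rfl⟩) p ⟨h, subset_union_left⟩
  have hsq : Short μ (Prod.fst '' q) := (hs.union hμ hS).mono hq2.prop.2
  refine ⟨q, hq1, hq2.prop.1, hsq, fun x hx hR => ?_⟩
  by_contra k
  obtain ⟨y, hy⟩ := ext1 hc hq2.prop.1 hsq hR k
  have := hq2.le_of_ge (y := insert (x, y) q) ⟨hy, by
    rw [image_insert_eq]
    exact insert_subset (Or.inr hx) hq2.prop.2⟩ (subset_insert _ _)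
  exact k ⟨(x, y), this (mem_insert _ _), rfl⟩

theorem ext3 (hμ : ℵ₀ ≤ μ) {R : L → Prop} {c : L → Θ} (hc : CSat μ R c) {p : Set (L × L)}
    (h : PI R c p) (hs : Short μ (Prod.fst '' p)) {S : Set L} (hS : Short μ S) :
    ∃ q, p ⊆ q ∧ PI R c q ∧ Short μ (Prod.fst '' q) ∧
      ∀ x ∈ S, R x → (∃ y, (x, y) ∈ q) ∧ ∃ y, (y, x) ∈ q := by
  obtain ⟨q, a1, a2, a3, a4⟩ := ext2 hμ hc h hs hS
  obtain ⟨r, b1, b2, b3, b4⟩ := ext2 hμ hc a2.swap (a2.short a3) hS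
  have hq : q ⊆ Prod.swap '' r := fun z hz => ⟨z.swap, b1 ⟨z, hz, rfl⟩, rfl⟩
  refine ⟨Prod.swap '' r, a1.trans hq, b2.swap, b2.short b3, fun x hx hR => ⟨?_, ?_⟩⟩
  · obtain ⟨z, hz, rfl⟩ := a4 x hx hR
    exact ⟨z.2, hq hz⟩
  · obtain ⟨z, hz, rfl⟩ := b4 x hx hR
    exact ⟨z.2, z, hz, rfl⟩

theorem region (hμ : ℵ₀ ≤ μ) (hΘ : #Θ ≤ μ) (c : L → Θ) :
    ∃ A B : Set L, #A ≤ μ ∧ #B ≤ μ ∧ (∀ a ∈ A, ∀ b ∈ B, a < b) ∧
      CSat μ (fun x => (∀ a ∈ A, a < x) ∧ ∀ b ∈ B, x < b) c := by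
  obtain ⟨m, hm⟩ := zorn_subset {F : Set (Θ × Set L × Set L) |
      (∀ p ∈ F, #p.2.1 ≤ μ ∧ #p.2.2 ≤ μ ∧
        ∀ y, (∀ a ∈ p.2.1, a < y) → (∀ b ∈ p.2.2, y < b) → c y ≠ p.1) ∧
      ∀ p ∈ F, ∀ q ∈ F, (∀ a ∈ p.2.1, ∀ b ∈ q.2.2, a < b) ∧ (p.1 = q.1 → p = q)}
    (fun ch h1 h2 => by
      refine ⟨⋃₀ ch, ⟨?_, ?_⟩, fun s hs => subset_sUnion_of_mem hs⟩
      · rintro r ⟨a, ha, hr⟩
        exact (h1 ha).1 r hr
      · rintro r ⟨a, ha, hr⟩ s ⟨b, hb, hs⟩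
        rcases h2.total ha hb with k | k
        · exact (h1 hb).2 r (k hr) s hs
        · exact (h1 ha).2 r hr s (k hs))
  obtain ⟨m1, m2⟩ := hm.prop
  have hc : #m ≤ μ := (mk_le_of_injective (f := fun p : m => p.1.1)
    fun p q h => Subtype.ext ((m2 _ p.2 _ q.2).2 h)).trans hΘ
  have hA := un_le hμ hc (C := fun p : m => p.1.2.1) fun p => (m1 _ p.2).1
  have hB := un_le hμ hc (C := fun p : m => p.1.2.2) fun p => (m1 _ p.2).2.1
  have hAB : ∀ a ∈ ⋃ p : m, p.1.2.1, ∀ b ∈ ⋃ p : m, p.1.2.2, a < b := by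
    intro a ha b hb
    obtain ⟨p, hp⟩ := mem_iUnion.1 ha
    obtain ⟨q, hq⟩ := mem_iUnion.1 hb
    exact (m2 _ p.2 _ q.2).1 a hp b hq
  refine ⟨_, _, hA, hB, hAB, fun A B a1 b1 a2 b2 hab x hx => ?_⟩
  by_contra h
  have hn : ∀ p ∈ m, p.1 ≠ c x := fun p hp k =>
    (m1 p hp).2.2 x (fun a ha => hx.1 a (mem_iUnion.2 ⟨⟨p, hp⟩, ha⟩))
      (fun a ha => hx.2 a (mem_iUnion.2 ⟨⟨p, hp⟩, ha⟩)) k.symm
  have big : ∀ a ∈ A ∪ ⋃ p : m, p.1.2.1, ∀ b ∈ B ∪ ⋃ p : m, p.1.2.2, a < b := by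
    rintro a (ha | ha) b (hb | hb)
    · exact hab a ha b hb
    · exact (a2 a ha).2 b hb
    · exact (b2 b hb).1 a ha
    · exact hAB a ha b hb
  have := hm.le_of_ge (y := insert (c x, A ∪ ⋃ p : m, p.1.2.1, B ∪ ⋃ p : m, p.1.2.2) m) ⟨?_, ?_⟩
    (subset_insert _ _)
  · exact hn _ (this (mem_insert _ _)) rfl
  · rintro p (rfl | hp)
    · exact ⟨un2_le hμ a1 hA, un2_le hμ b1 hB, fun y y1 y2 y3 =>
        h ⟨y, ⟨fun a ha => y1 a (Or.inr ha), fun a ha => y2 a (Or.inr ha)⟩, y3,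
          fun a ha => y1 a (Or.inl ha), fun a ha => y2 a (Or.inl ha)⟩⟩
    · exact m1 p hp
  · rintro p (rfl | hp) q (rfl | hq)
    · exact ⟨big, fun _ => rfl⟩
    · exact ⟨fun a ha b hb => big a ha b (Or.inr (mem_iUnion.2 ⟨⟨q, hq⟩, hb⟩)),
        fun k => absurd k.symm (hn q hq)⟩
    · exact ⟨fun a ha b hb => big a (Or.inr (mem_iUnion.2 ⟨⟨p, hp⟩, ha⟩)) b hb,
        fun k => absurd k (hn p hp)⟩
    · exact m2 p hp q hq

theorem aut (hμ : ℵ₀ ≤ μ) (hs : Sat μ L) {K : Type} [LinearOrder K] [WellFoundedLT K]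
    (hK : ∀ k : K, #(Iio k) ≤ μ) (H : K → Set L) (hH : ∀ k, Short μ (H k))
    (hH' : ∀ x, ∃ k, x ∈ H k) (hΘ : #Θ ≤ μ) (c : L → Θ) :
    ∃ σ : L ≃o L, (∃ x, σ x ≠ x) ∧ ∀ x, c (σ x) = c x := by
  classical
  obtain ⟨A, B, hA, hB, hAB, hc⟩ := region hμ hΘ c
  set R : L → Prop := fun x => (∀ a ∈ A, a < x) ∧ ∀ b ∈ B, x < b with hR
  obtain ⟨x0, hx0⟩ : ∃ x, R x := hs A B hA hB hAB
  obtain ⟨y0, y1, y2, y3, -⟩ := hc {x0} ∅ (fin_le hμ (toFinite _)) (fin_le hμ (toFinite _))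
    (by simpa) (by simp) (by simp) x0 hx0
  have y4 : x0 < y0 := y3 x0 rfl
  have step : ∀ (k : K) (u : Set (L × L)), ∃ q, PI R c u ∧ Short μ (Prod.fst '' u) →
      u ⊆ q ∧ PI R c q ∧ Short μ (Prod.fst '' q) ∧
      ∀ x ∈ H k, R x → (∃ y, (x, y) ∈ q) ∧ ∃ y, (y, x) ∈ q := by
    intro k u
    by_cases h : PI R c u ∧ Short μ (Prod.fst '' u)
    · obtain ⟨q, hq⟩ := ext3 hμ hc h.1 h.2 (hH k)
      exact ⟨q, fun _ => hq⟩
    · exact ⟨∅, fun h' => absurd h' h⟩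
  choose st hst using step
  let P : K → Set (L × L) := WellFounded.fix (wellFounded_lt (α := K))
    (fun k ih => st k (insert (x0, y0) (⋃ j : Iio k, ih j.1 j.2)))
  have hP : ∀ k, P k = st k (insert (x0, y0) (⋃ j : Iio k, P j.1)) := fun k =>
    WellFounded.fix_eq _ _ _
  have inv : ∀ k, insert (x0, y0) (⋃ j : Iio k, P j.1) ⊆ P k ∧ PI R c (P k) ∧
      Short μ (Prod.fst '' P k) ∧ ∀ x ∈ H k, R x → (∃ y, (x, y) ∈ P k) ∧ ∃ y, (y, x) ∈ P k := by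
    intro k
    induction k using WellFoundedLT.induction with
    | ind k ih =>
      rw [hP k]
      refine hst k _ ⟨⟨?_, ?_⟩, ?_⟩
      · rintro r (rfl | hr)
        · exact ⟨hx0, y1, y2.symm⟩
        · obtain ⟨j, hj⟩ := mem_iUnion.1 hr
          exact (ih j.1 j.2).2.1.1 r hj
      · rintro r (rfl | hr) s (rfl | hs)
        · simp
        · obtain ⟨j, hj⟩ := mem_iUnion.1 hs
          exact (ih j.1 j.2).2.1.2 _ ((ih j.1 j.2).1 (mem_insert _ _)) s hj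
        · obtain ⟨j, hj⟩ := mem_iUnion.1 hr
          exact (ih j.1 j.2).2.1.2 r hj _ ((ih j.1 j.2).1 (mem_insert _ _))
        · obtain ⟨i, hi⟩ := mem_iUnion.1 hr
          obtain ⟨j, hj⟩ := mem_iUnion.1 hs
          rcases lt_trichotomy i.1 j.1 with h | h | h
          · exact (ih j.1 j.2).2.1.2 r ((ih j.1 j.2).1 (Or.inr (mem_iUnion.2 ⟨⟨i.1, h⟩, hi⟩))) s hj
          · exact (ih j.1 j.2).2.1.2 r (h ▸ hi) s hj
          · exact (ih i.1 i.2).2.1.2 r hi s ((ih i.1 i.2).1 (Or.inr (mem_iUnion.2 ⟨⟨j.1, h⟩, hj⟩)))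
      · rw [image_insert_eq, image_iUnion, insert_eq]
        exact (short_small (fin_le hμ (toFinite _))).union hμ
          (short_iUnion hμ (hK k) fun j => (ih j.1 j.2).2.2.1)
  have hm : ∀ i j, i ≤ j → P i ⊆ P j := fun i j h => by
    rcases h.eq_or_lt with rfl | h
    · exact Subset.rfl
    · exact fun r hr => (inv j).1 (Or.inr (mem_iUnion.2 ⟨⟨i, h⟩, hr⟩))
  have ho : ∀ i j, ∀ r ∈ P i, ∀ s ∈ P j, (r.1 < s.1 ↔ r.2 < s.2) := fun i j r hr s hs =>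
    (inv (max i j)).2.1.2 r (hm _ _ (le_max_left _ _) hr) s (hm _ _ (le_max_right _ _) hs)
  have hu : ∀ i j x y y', (x, y) ∈ P i → (x, y') ∈ P j → y = y' := fun i j x y y' h h' =>
    le_antisymm (not_lt.1 fun k => lt_irrefl x ((ho j i _ h' _ h).2 k))
      (not_lt.1 fun k => lt_irrefl x ((ho i j _ h _ h').2 k))
  have : ∀ x, ∃ y, (R x → ∃ k, (x, y) ∈ P k) ∧ (¬ R x → y = x) := by
    intro x
    by_cases h : R x
    · obtain ⟨k, hk⟩ := hH' x
      obtain ⟨y, hy⟩ := ((inv k).2.2.2 x hk h).1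
      exact ⟨y, fun _ => ⟨k, hy⟩, fun h' => absurd h h'⟩
    · exact ⟨x, fun h' => absurd h' h, fun _ => rfl⟩
  choose σ σ1 σ2 using this
  have σR : ∀ x, R x → R (σ x) ∧ c (σ x) = c x := fun x h => by
    obtain ⟨k, hk⟩ := σ1 x h
    exact ⟨((inv k).2.1.1 _ hk).2.1, ((inv k).2.1.1 _ hk).2.2.symm⟩
  have hmono : StrictMono σ := by
    intro x y hxy
    by_cases hx : R x <;> by_cases hy : R y
    · obtain ⟨i, hi⟩ := σ1 x hx
      obtain ⟨j, hj⟩ := σ1 y hy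
      exact (ho i j _ hi _ hj).1 hxy
    · rw [σ2 y hy]
      by_contra k
      exact hy ⟨fun a ha => (hx.1 a ha).trans hxy,
        fun b hb => (not_lt.1 k).trans_lt ((σR x hx).1.2 b hb)⟩
    · rw [σ2 x hx]
      by_contra k
      exact hx ⟨fun a ha => ((σR y hy).1.1 a ha).trans_le (not_lt.1 k),
        fun b hb => hxy.trans (hy.2 b hb)⟩
    · rwa [σ2 x hx, σ2 y hy]
  have hsurj : Function.Surjective σ := by
    intro y
    by_cases hy : R y
    · obtain ⟨k, hk⟩ := hH' y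
      obtain ⟨x, hx⟩ := ((inv k).2.2.2 y hk hy).2
      obtain ⟨j, hj⟩ := σ1 x ((inv k).2.1.1 _ hx).1
      exact ⟨x, hu j k x _ _ hj hx⟩
    · exact ⟨y, σ2 y hy⟩
  refine ⟨hmono.orderIsoOfSurjective σ hsurj, ⟨x0, ?_⟩, fun x => ?_⟩
  · obtain ⟨j, hj⟩ := σ1 x0 hx0
    have := hu j j x0 _ _ hj ((inv j).1 (mem_insert _ _))
    exact fun k => y4.ne' (this.symm.trans k)
  · by_cases h : R x
    · exact (σR x h).2
    · exact congrArg c (σ2 x h)

end order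

theorem bdd {X : Type} [LinearOrder X] {κ : Cardinal.{0}} (hκ : ℵ₀ ≤ κ) (hX : κ < #X)
    (hI : ∀ a : X, #(Iio a) ≤ κ) {s : Set X} (hs : #s ≤ κ) : ∃ a, ∀ b ∈ s, b < a := by
  have h1 : #(⋃ b : s, Iic b.1 : Set X) ≤ κ := un_le hκ hs fun b => by
    rw [← Iio_insert, insert_eq]
    exact un2_le hκ (fin_le hκ (toFinite _)) (hI _)
  by_contra h
  push Not at h
  have : (⋃ b : s, Iic b.1 : Set X) = Set.univ := eq_univ_of_forall fun a => by
    obtain ⟨b, hb, hab⟩ := h a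
    exact mem_iUnion.2 ⟨⟨b, hb⟩, hab⟩
  rw [this, mk_univ] at h1
  exact absurd hX (not_lt.2 h1)

theorem cofin {M K : Type} [LinearOrder M] [LinearOrder K] [WellFoundedLT K] {μ : Cardinal.{0}}
    (hμ : ℵ₀ ≤ μ) (hK : ∀ k : K, #(Iio k) ≤ μ) (e : M → K → Fin 3)
    (he : ∀ a b j, a ≤ b → (∀ i < j, e a i = e b i) → e a j ≤ e b j) (k : K) (T : Set M)
    (hT : ∀ a ∈ T, ∀ b ∈ T, (∀ i < k, e a i = e b i) → a = b) :
    ∃ C ⊆ T, #C ≤ μ ∧ ∀ t ∈ T, ∃ c ∈ C, t ≤ c := by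
  by_contra h
  have ub : ∀ C ⊆ T, #C ≤ μ → ∃ t ∈ T, ∀ c ∈ C, c < t := fun C h1 h2 => by
    by_contra k
    push Not at k
    exact h ⟨C, h1, h2, k⟩
  have tail : ∀ j : K, (∀ i < j, ∃ t0 ∈ T, ∀ t ∈ T, t0 ≤ t → e t i = e t0 i) →
      ∃ t0 ∈ T, ∀ t ∈ T, t0 ≤ t → ∀ i < j, e t i = e t0 i := by
    intro j ih
    choose g g1 g2 using fun i : Iio j => ih i.1 i.2
    obtain ⟨t0, h1, h2⟩ := ub (range g) (range_subset_iff.2 g1) (mk_range_le.trans (hK j))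
    refine ⟨t0, h1, fun t ht htt i hi => ?_⟩
    have := (h2 _ ⟨⟨i, hi⟩, rfl⟩).le
    rw [g2 ⟨i, hi⟩ t ht (this.trans htt), g2 ⟨i, hi⟩ t0 h1 this]
  have all : ∀ j : K, ∃ t0 ∈ T, ∀ t ∈ T, t0 ≤ t → e t j = e t0 j := by
    intro j
    induction j using WellFoundedLT.induction with
    | ind j ih =>
      obtain ⟨t0, h1, h2⟩ := tail j ih
      obtain ⟨_, ⟨t1, ⟨k1, k2⟩, rfl⟩, k3⟩ := Set.exists_max_image
        ((fun t => e t j) '' {t | t ∈ T ∧ t0 ≤ t}) id (toFinite _) ⟨_, t0, ⟨h1, le_rfl⟩, rfl⟩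
      refine ⟨t1, k1, fun t ht htt => le_antisymm (k3 _ ⟨t, ⟨ht, k2.trans htt⟩, rfl⟩)
        (he _ _ _ htt fun i hi => ?_)⟩
      rw [h2 t1 k1 k2 i hi, h2 t ht (k2.trans htt) i hi]
  obtain ⟨t0, h1, h2⟩ := tail k fun i _ => all i
  obtain ⟨t, ht, ht'⟩ := ub {t0} (singleton_subset_iff.2 h1) (fin_le hμ (toFinite _))
  have := ht' t0 rfl
  exact this.ne' (hT t ht t0 h1 (h2 t ht this.le))

theorem exL {μ : Cardinal.{0}} (hμ : ℵ₀ ≤ μ) : ∃ (L : Type) (_ : LinearOrder L), Sat μ L ∧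
    #L ≤ 2 ^ μ ∧ ∀ (Θ : Type), #Θ ≤ μ → ∀ c : L → Θ,
      ∃ σ : L ≃o L, (∃ x, σ x ≠ x) ∧ ∀ x, c (σ x) = c x := by
  classical
  let K := (Order.succ μ).ord.ToType
  have hK : #K = Order.succ μ := by simp [K]
  have hI : ∀ k : K, #(Iio k) ≤ μ := fun k =>
    Order.lt_succ_iff.1 ((mk_Iio_lt k (by simp [K])).trans_eq hK)
  have hb : ∀ s : Set K, #s ≤ μ → ∃ a, ∀ b ∈ s, b < a := fun s hs =>
    bdd hμ (hK ▸ Order.lt_succ μ) hI hs
  let L := {f : Lex (K → Fin 3) // ∃ k, ∀ j, k ≤ j → f j = 1}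
  let H : K → Set L := fun k => {f | ∀ j, k ≤ j → f.1 j = 1}
  have hext : ∀ k, ∀ a ∈ H k, ∀ b ∈ H k, (∀ i < k, a.1 i = b.1 i) → a = b := by
    intro k a ha b hb h
    refine Subtype.ext (funext fun i => ?_)
    rcases lt_or_ge i k with hi | hi
    · exact h i hi
    · exact (ha i hi).trans (hb i hi).symm
  have hs : Sat μ L := by
    intro A B hA hB hAB
    choose g hg using fun f : L => f.2
    obtain ⟨k, hk⟩ := hb (g '' (A ∪ B)) (mk_image_le.trans (un2_le hμ hA hB))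
    have hH : ∀ f ∈ A ∪ B, f ∈ H k := fun f hf j hj => hg f j ((hk _ ⟨f, hf, rfl⟩).le.trans hj)
    obtain ⟨k', hk'⟩ := hb {k} (fin_le hμ (toFinite _))
    let s : Lex (K → Fin 3) := sSup (Subtype.val '' A)
    have s1 : ∀ a ∈ A, a.1 ≤ s := fun a ha => le_sSup ⟨a, ha, rfl⟩
    have s2 : ∀ b ∈ B, s ≤ b.1 := fun b hb => sSup_le (by
      rintro _ ⟨a, ha, rfl⟩
      exact (hAB a ha b hb).le)
    let tr : Fin 3 → L := fun v => ⟨toLex fun j => if j < k then s j else if j = k then v else 1,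
      k', fun j hj => by
        have := (hk' k rfl).trans_le hj
        simp [this.ne', this.not_gt]⟩
    have t1 : ∀ v j, j < k → (tr v).1 j = s j := fun v j hj => by simp [tr, hj]
    have t2 : ∀ v, (tr v).1 k = v := fun v => by simp [tr]
    have i1 : ∀ (f : L) v, f.1 ≤ s → ¬ (∀ j < k, f.1 j = s j) → f < tr v := by
      intro f v h1 h2
      obtain ⟨i, a1, a2⟩ : f.1 < s := lt_of_le_of_ne h1 fun h => h2 fun j _ => by rw [h]
      have hi : i < k := not_le.1 fun h => h2 fun j hj => a1 j (hj.trans_le h)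
      exact ⟨i, fun j hj => (a1 j hj).trans (t1 v j (hj.trans hi)).symm, by
        rw [t1 v i hi]; exact a2⟩
    have i2 : ∀ (f : L) v, s ≤ f.1 → ¬ (∀ j < k, f.1 j = s j) → tr v < f := by
      intro f v h1 h2
      obtain ⟨i, a1, a2⟩ : s < f.1 := lt_of_le_of_ne h1 fun h => h2 fun j _ => by rw [h]
      have hi : i < k := not_le.1 fun h => h2 fun j hj => (a1 j (hj.trans_le h)).symm
      exact ⟨i, fun j hj => (t1 v j (hj.trans hi)).trans (a1 j hj), by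
        rw [t1 v i hi]; exact a2⟩
    have i3 : ∀ f ∈ H k, (∀ j < k, f.1 j = s j) → tr 0 < f ∧ f < tr 2 := by
      intro f h1 h2
      refine ⟨⟨k, fun j hj => (t1 0 j hj).trans (h2 j hj).symm, ?_⟩,
        ⟨k, fun j hj => (h2 j hj).trans (t1 2 j hj).symm, ?_⟩⟩
      · rw [t2, h1 k le_rfl]; exact (by decide : (0 : Fin 3) < 1)
      · rw [t2, h1 k le_rfl]; exact (by decide : (1 : Fin 3) < 2)
    by_cases h : ∃ a ∈ A, ∀ j < k, a.1 j = s j
    · obtain ⟨a, ha, ha'⟩ := h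
      refine ⟨tr 2, fun f hf => ?_, fun f hf => i2 f 2 (s2 f hf) fun h => ?_⟩
      · by_cases h : ∀ j < k, f.1 j = s j
        · exact (i3 f (hH f (Or.inl hf)) h).2
        · exact i1 f 2 (s1 f hf) h
      · exact (hAB a ha f hf).ne (hext k a (hH a (Or.inl ha)) f (hH f (Or.inr hf))
          fun i hi => (ha' i hi).trans (h i hi).symm)
    · refine ⟨tr 0, fun f hf => i1 f 0 (s1 f hf) fun h' => h ⟨f, hf, h'⟩, fun f hf => ?_⟩
      by_cases h : ∀ j < k, f.1 j = s j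
      · exact (i3 f (hH f (Or.inr hf)) h).1
      · exact i2 f 0 (s2 f hf) h
  have hle : ∀ (a b : L) j, a ≤ b → (∀ i < j, a.1 i = b.1 i) → a.1 j ≤ b.1 j :=
    fun a b j h h' => Pi.apply_le_of_toLex (x := ofLex a.1) (y := ofLex b.1) h h'
  have hsh : ∀ k, Short μ (H k) := fun k T hT =>
    ⟨cofin hμ hI (fun a : L => a.1) hle k T fun a ha b hb => hext k a (hT ha) b (hT hb),
      cofin (M := Lᵒᵈ) hμ hI (fun a j => ((OrderDual.ofDual a).1 j).rev)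
        (fun a b j h h' => Fin.rev_le_rev.2
          (hle _ _ j h fun i hi => (Fin.rev_injective (h' i hi)).symm)) k T
        fun a ha b hb h => hext k a (hT ha) b (hT hb) fun i hi => Fin.rev_injective (h i hi)⟩
  refine ⟨L, inferInstance, hs, ?_, fun Θ hΘ c => aut hμ hs hI H hsh (fun x => x.2) hΘ c⟩
  have h2 : ℵ₀ ≤ (2 : Cardinal.{0}) ^ μ := hμ.trans (cantor μ).le
  have : (univ : Set L) ⊆ ⋃ k, H k := fun x _ => mem_iUnion.2 x.2
  rw [← mk_univ]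
  refine (mk_le_mk_of_subset this).trans (un_le h2 (hK ▸ Order.succ_le_of_lt (cantor μ))
    fun k => ?_)
  refine (mk_le_of_injective (f := fun (a : H k) (i : Iio k) => a.1.1 i.1) fun a b h =>
    Subtype.ext (hext k _ a.2 _ b.2 fun i hi => congrFun h ⟨i, hi⟩)).trans ?_
  rw [← power_def, mk_fin]
  calc ((3 : ℕ) : Cardinal.{0}) ^ #(Iio k) ≤ (2 ^ μ) ^ μ :=
        (power_le_power_right (natCast_lt_aleph0.le.trans h2)).trans
          (power_le_power_left (aleph0_pos.trans_le h2).ne' (hI k))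
    _ = 2 ^ μ := by rw [← power_mul, mul_eq_self hμ]

section graph
variable {L : Type} [LinearOrder L]

def rel : Option (L × Bool × ℕ) → Option (L × Bool × ℕ) → Prop
  | none, some (_, _, n) => n = 0
  | some (x, b, n), some (y, c, k) =>
      (x = y ∧ b = c ∧ k = n + 1) ∨ (n = 0 ∧ k = 0 ∧ b = true ∧ c = false ∧ x < y)
  | _, none => False

def gr (L : Type) [LinearOrder L] : SimpleGraph (Option (L × Bool × ℕ)) := SimpleGraph.fromRel rel

theorem adj_none (x : L) (b : Bool) (n : ℕ) : (gr L).Adj none (some (x, b, n)) ↔ n = 0 := by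
  simp [gr, rel]

theorem adj_some (x y : L) (b c : Bool) (n k : ℕ) :
    (gr L).Adj (some (x, b, n)) (some (y, c, k)) ↔
      (x = y ∧ b = c ∧ k = n + 1) ∨ (x = y ∧ b = c ∧ n = k + 1) ∨
      (n = 0 ∧ k = 0 ∧ b = true ∧ c = false ∧ x < y) ∨
      (n = 0 ∧ k = 0 ∧ b = false ∧ c = true ∧ y < x) := by
  simp only [gr, SimpleGraph.fromRel_adj, rel, ne_eq, Option.some.injEq, Prod.mk.injEq]
  constructor
  · rintro ⟨-, (h | h) | (h | h)⟩
    · exact Or.inl h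
    · exact Or.inr (Or.inr (Or.inl h))
    · exact Or.inr (Or.inl ⟨h.1.symm, h.2.1.symm, h.2.2⟩)
    · exact Or.inr (Or.inr (Or.inr ⟨h.2.1, h.1, h.2.2.2.1, h.2.2.1, h.2.2.2.2⟩))
  · rintro (h | h | h | h)
    · exact ⟨fun e => by omega, Or.inl (Or.inl h)⟩
    · exact ⟨fun e => by omega, Or.inr (Or.inl ⟨h.1.symm, h.2.1.symm, h.2.2⟩)⟩
    · exact ⟨fun e => h.2.2.2.2.ne e.1, Or.inl (Or.inr h)⟩
    · exact ⟨fun e => h.2.2.2.2.ne' e.1,
        Or.inr (Or.inr ⟨h.2.1, h.1, h.2.2.2.1, h.2.2.1, h.2.2.2.2⟩)⟩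

theorem treeLike [Nonempty L] : TreeLike (gr L) none := by
  have hr : ∀ (x : L) b n, (gr L).Reachable none (some (x, b, n)) := by
    intro x b n
    induction n with
    | zero => exact ((adj_none x b 0).2 rfl).reachable
    | succ n ih =>
      exact ih.trans ((adj_some x x b b n (n + 1)).2 (Or.inl ⟨rfl, rfl, rfl⟩)).reachable
  constructor
  · rw [SimpleGraph.connected_iff_exists_forall_reachable]
    refine ⟨none, ?_⟩
    rintro (_ | ⟨x, b, n⟩)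
    · rfl
    · exact hr x b n
  · rintro (_ | ⟨x, b, n⟩)
    · obtain ⟨x⟩ := ‹Nonempty L›
      exact ⟨some (x, true, 0), (adj_none _ _ _).2 rfl, fun p _ => p.end_mem_support⟩
    · refine ⟨some (x, b, n + 1), (adj_some _ _ _ _ _ _).2 (Or.inl ⟨rfl, rfl, rfl⟩), fun p _ => ?_⟩
      have : ∀ (u w : Option (L × Bool × ℕ)) (p : (gr L).Walk u w), w = none →
          (∃ k, n < k ∧ u = some (x, b, k)) → some (x, b, n) ∈ p.support := by
        intro u w p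
        induction p with
        | nil => rintro rfl ⟨k, -, h⟩; cases h
        | @cons u v w h p ih =>
          rintro hw ⟨k, hk, rfl⟩
          rw [SimpleGraph.Walk.support_cons]
          refine List.mem_cons_of_mem _ ?_
          rcases v with _ | ⟨y, c, l⟩
          · have := (adj_none _ _ _).1 h.symm
            omega
          · rcases (adj_some _ _ _ _ _ _).1 h with ⟨rfl, rfl, e⟩ | ⟨rfl, rfl, e⟩ | e | e
            · exact ih hw ⟨l, by omega, rfl⟩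
            · rcases Nat.lt_or_ge n l with a | a
              · exact ih hw ⟨l, a, rfl⟩
              · obtain rfl : l = n := by omega
                exact SimpleGraph.Walk.start_mem_support _
            · omega
            · omega
      exact this _ _ p rfl ⟨n + 1, by omega, rfl⟩

def lift (σ : L ≃o L) : gr L ≃g gr L where
  toEquiv := Equiv.optionCongr (σ.toEquiv.prodCongr (Equiv.refl _))
  map_rel_iff' := by
    rintro (_ | ⟨x, b, n⟩) (_ | ⟨y, c, k⟩)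
    · simp
    · exact (adj_none (σ y) c k).trans (adj_none y c k).symm
    · rw [SimpleGraph.adj_comm, (gr L).adj_comm (some _) none]
      exact (adj_none (σ x) b n).trans (adj_none x b n).symm
    · refine (adj_some (σ x) (σ y) b c n k).trans ?_
      rw [adj_some]
      simp

theorem rigid {μ : Cardinal.{0}} (hμ : ℵ₀ ≤ μ) (hs : Sat μ L) (φ : gr L ≃g gr L)
    (h : #{v | φ v ≠ v} ≤ μ) (v : Option (L × Bool × ℕ)) : φ v = v := by
  obtain ⟨x0, -⟩ := hs ∅ ∅ (by simp) (by simp) (by simp)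
  let M : Set L := (fun v : Option (L × Bool × ℕ) => v.elim x0 (·.1)) '' {v | φ v ≠ v}
  have hM : #M ≤ μ := mk_image_le.trans h
  have av : ∀ A B : Set L, A.Finite → B.Finite → (∀ a ∈ A, ∀ b ∈ B, a < b) →
      ∃ y, (∀ a ∈ A, a < y) ∧ (∀ b ∈ B, y < b) ∧
        ∀ u b, (gr L).Adj (φ u) (some (y, b, 0)) ↔ (gr L).Adj u (some (y, b, 0)) := by
    intro A B hA hB hAB
    obtain ⟨z, z1, z2⟩ := hs A B (fin_le hμ hA) (fin_le hμ hB) hAB
    obtain ⟨y, y1, y2⟩ := hs (A ∪ M ∩ Iic z) (B ∪ M ∩ Ioi z)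
      (un2_le hμ (fin_le hμ hA) ((mk_le_mk_of_subset inter_subset_left).trans hM))
      (un2_le hμ (fin_le hμ hB) ((mk_le_mk_of_subset inter_subset_left).trans hM)) (by
        rintro a (ha | ha) b (hb | hb)
        · exact hAB a ha b hb
        · exact (z1 a ha).trans hb.2
        · exact lt_of_le_of_lt ha.2 (z2 b hb)
        · exact lt_of_le_of_lt ha.2 hb.2)
    refine ⟨y, fun a ha => y1 a (Or.inl ha), fun a ha => y2 a (Or.inl ha), fun u b => ?_⟩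
    have : φ (some (y, b, 0)) = some (y, b, 0) := by
      by_contra k
      have hy : y ∈ M := ⟨_, k, rfl⟩
      rcases le_or_gt y z with l | l
      · exact lt_irrefl _ (y1 y (Or.inr ⟨hy, l⟩))
      · exact lt_irrefl _ (y2 y (Or.inr ⟨hy, l⟩))
    rw [← φ.map_adj_iff (v := u), this]
  have h0 : φ none = none := by
    rcases e : φ none with _ | ⟨x, b, n⟩
    · rfl
    · obtain ⟨y, y1, -, y3⟩ := av {x} ∅ (toFinite _) (toFinite _) (by simp)
      have y1 : x < y := y1 x rfl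
      have := (y3 none true).2 ((adj_none _ _ _).2 rfl)
      rw [e, adj_some] at this
      rcases this with k | k | k | k
      · omega
      · exact absurd k.1 y1.ne
      · simp at k
      · exact absurd k.2.2.2.2 y1.not_gt
  have h1 : ∀ x b, φ (some (x, b, 0)) = some (x, b, 0) := by
    intro x b
    rcases e : φ (some (x, b, 0)) with _ | ⟨x', b', n⟩
    · exact absurd (φ.injective (e.trans h0.symm)) (by simp)
    have key : ∀ A B : Set L, A.Finite → B.Finite → (∀ a ∈ A, ∀ b ∈ B, a < b) →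
        ∃ y, (∀ a ∈ A, a < y) ∧ (∀ b ∈ B, y < b) ∧ ∀ c,
          (gr L).Adj (some (x', b', n)) (some (y, c, 0)) ↔
            (gr L).Adj (some (x, b, 0)) (some (y, c, 0)) := by
      intro A B hA hB hAB
      obtain ⟨y, y1, y2, y3⟩ := av A B hA hB hAB
      exact ⟨y, y1, y2, fun c => by rw [← y3 (some (x, b, 0)) c, e]⟩
    have hnb : n = 0 ∧ b' = b := by
      cases b
      · obtain ⟨y, -, y2, y3⟩ := key ∅ {x, x'} (toFinite _) (toFinite _) (by simp)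
        have a1 : y < x := y2 x (by simp)
        have a2 : y < x' := y2 x' (by simp)
        have := y3 true
        simp only [adj_some, a1, a2, a2.ne'] at this
        simpa using this
      · obtain ⟨y, y2, -, y3⟩ := key {x, x'} ∅ (toFinite _) (toFinite _) (by simp)
        have a1 : x < y := y2 x (by simp)
        have a2 : x' < y := y2 x' (by simp)
        have := y3 false
        simp only [adj_some, a1, a2, a2.ne] at this
        simpa using this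
    obtain ⟨rfl, rfl⟩ := hnb
    rcases lt_trichotomy x x' with l | rfl | l
    · obtain ⟨y, y1, y2, y3⟩ := key {x} {x'} (toFinite _) (toFinite _) (by simpa)
      have a1 : x < y := y1 x rfl
      have a2 : y < x' := y2 x' rfl
      have := y3 (!b')
      cases b' <;> simp [adj_some, a1, a2, a1.not_gt, a2.not_gt] at this
    · rfl
    · obtain ⟨y, y1, y2, y3⟩ := key {x'} {x} (toFinite _) (toFinite _) (by simpa)
      have a1 : x' < y := y1 x' rfl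
      have a2 : y < x := y2 x rfl
      have := y3 (!b')
      cases b' <;> simp [adj_some, a1, a2, a1.not_gt, a2.not_gt] at this
  rcases v with _ | ⟨x, b, n⟩
  · exact h0
  induction n using Nat.strong_induction_on with
  | _ n ih =>
    rcases n with _ | n
    · exact h1 x b
    have a : (gr L).Adj (some (x, b, n)) (φ (some (x, b, n + 1))) := by
      rw [← ih n (by omega), φ.map_adj_iff]
      exact (adj_some _ _ _ _ _ _).2 (Or.inl ⟨rfl, rfl, rfl⟩)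
    have fx : ∀ z, φ (some (x, b, n + 1)) = z → φ z = z → z = some (x, b, n + 1) :=
      fun z k1 k2 => φ.injective (k2.trans k1.symm)
    rcases e : φ (some (x, b, n + 1)) with _ | ⟨y, c, k⟩
    · exact fx _ e h0
    · rw [e] at a
      rcases (adj_some _ _ _ _ _ _).1 a with ⟨rfl, rfl, rfl⟩ | ⟨rfl, rfl, l⟩ | l | l
      · rfl
      · exact fx _ e (ih k (by omega))
      · obtain rfl := l.2.1
        exact fx _ e (h1 y c)
      · obtain rfl := l.2.1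
        exact fx _ e (h1 y c)

end graph

theorem result : ∃ (V : Type) (G : SimpleGraph V) (w : V) (m : Cardinal.{0}),
    ℵ₀ < m ∧ TreeLike G w ∧ IsLeast (Moved G) m ∧ (∀ v, #(G.neighborSet v) ≤ 2 ^ m) ∧
      ∀ S : Set V, ∃ φ : G ≃g G, (∃ v, φ v ≠ v) ∧ φ '' S = S := by
  obtain ⟨L, _, hs, hL, ha⟩ := exL aleph0_le_continuum
  obtain ⟨x0, -⟩ := hs ∅ ∅ (by simp) (by simp) (by simp)
  have : Nonempty L := ⟨x0⟩
  have hS : ∀ S : Set (Option (L × Bool × ℕ)), ∃ φ : gr L ≃g gr L,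
      (∃ v, φ v ≠ v) ∧ φ '' S = S := by
    intro S
    obtain ⟨σ, ⟨x, hx⟩, hc⟩ := ha (Set (Bool × ℕ)) (by simp) fun x => {p | some (x, p) ∈ S}
    have key : ∀ v, lift σ v ∈ S ↔ v ∈ S := by
      rintro (_ | ⟨y, p⟩)
      · rfl
      · exact Set.ext_iff.1 (hc y) p
    refine ⟨lift σ, ⟨some (x, true, 0), fun h => hx ?_⟩, ?_⟩
    · have : some (σ x, true, 0) = some (x, true, 0) := h
      simpa using this
    · ext v
      constructor
      · rintro ⟨u, hu, rfl⟩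
        exact (key u).2 hu
      · intro hv
        obtain ⟨u, rfl⟩ := (lift σ).surjective v
        exact ⟨u, (key u).1 hv, rfl⟩
  have hne : (Moved (gr L)).Nonempty := by
    obtain ⟨φ, h, -⟩ := hS ∅
    exact ⟨_, φ, h, rfl⟩
  have hm : 𝔠 < sInf (Moved (gr L)) := by
    obtain ⟨φ, ⟨v, hv⟩, h⟩ := csInf_mem hne
    rw [h]
    exact not_le.1 fun k => hv (rigid aleph0_le_continuum hs φ k v)
  refine ⟨_, gr L, none, sInf (Moved (gr L)), aleph0_lt_continuum.trans hm, treeLike,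
    ⟨csInf_mem hne, fun c hc => csInf_le' hc⟩, fun v => (mk_set_le _).trans ?_, hS⟩
  refine le_trans ?_ (power_le_power_left two_ne_zero hm.le)
  have h2 : ℵ₀ ≤ (2 : Cardinal.{0}) ^ 𝔠 := aleph0_le_continuum.trans (cantor _).le
  rw [mk_option, mk_prod, Cardinal.lift_id, Cardinal.lift_id]
  exact add_le_of_le h2 ((mul_le_mul' hL (mk_le_aleph0.trans h2)).trans (mul_eq_self h2).le)
    (one_le_aleph0.trans h2)

end Pool.Agent.Results.MP_53e992_co.Counter
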